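import Pool.Agent.H21.L.R_seed8.W187.S2.Stm

/-! Project S2: comparison of the correction function with its second order terms. -/

set_option autoImplicit false

namespace Pool.Agent.W856.S2

open Complex MeasureTheory Filter Topology Set
open scoped Classical
open Pool.Agent.W189.ML Pool.Agent.W187.UR Pool.Agent.W263.BSD Pool.Agent.W187.S2

variable {S : Set ℕ} {A : ℕ → ℝ}

/-- the remainder terms -/
noncomputable def rt (S : Set ℕ) (A : ℕ → ℝ) (p : ℕ) (w : ℂ) : ℂ := gterm S A p w - mt S A p w

theorem rt_bound (E : EData S A) (p : ℕ) {w : ℂ} (hw : 0 ≤ w.re) :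
    ‖rt S A p w‖ ≤ 60 * (p : ℝ) ^ (-(3 / 2) : ℝ) := by
  by_cases hp : p ∈ S
  · have h25 := E.big p hp
    have h := E.gterm_main hp hw
    rw [dl_cube (by omega)] at h
    unfold rt Pool.Agent.W187.S2.mt
    rw [if_pos hp]
    exact h
  · unfold rt Pool.Agent.W187.S2.mt gterm
    rw [if_neg hp, if_neg hp, sub_zero, norm_zero]
    positivity

theorem sum60 : Summable fun p : ℕ => 60 * (p : ℝ) ^ (-(3 / 2) : ℝ) :=
  (Real.summable_nat_rpow.mpr (by norm_num)).mul_left _

theorem xp_diff {p : ℕ} (hp : p ≠ 0) (w : ℂ) : DifferentiableAt ℂ (xp p) w := by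
  unfold xp
  refine DifferentiableAt.const_cpow differentiable_neg.differentiableAt (Or.inl ?_)
  exact_mod_cast hp

theorem gterm_diff (E : EData S A) (p : ℕ) {w : ℂ} (hw : 0 ≤ w.re) :
    DifferentiableAt ℂ (gterm S A p) w := by
  by_cases hp : p ∈ S
  · have h25 := E.big p hp
    have hX : DifferentiableAt ℂ (xp p) w := xp_diff (by omega) w
    have h1 : gterm S A p = fun w => cc A p * xp p w - Complex.log (fac A p (xp p w)) := by
      funext w; unfold gterm; rw [if_pos hp]
    rw [h1]
    refine (hX.const_mul _).sub (DifferentiableAt.clog ?_ ?_)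
    · unfold fac
      exact ((differentiableAt_const _).sub (hX.const_mul _)).add ((hX.pow 2).const_mul _)
    · exact factor_slit (dl_nonneg p) (dl_le h25) (E.tt_le hp)
        (norm_xp_le (by omega) hw)
  · have h1 : gterm S A p = fun _ => 0 := by
      funext w; unfold gterm; rw [if_neg hp]
    rw [h1]
    exact differentiableAt_const _

theorem mt_diff (E : EData S A) (p : ℕ) (w : ℂ) : DifferentiableAt ℂ (mt S A p) w := by
  by_cases hp : p ∈ S
  · have h25 := E.big p hp
    have hX : DifferentiableAt ℂ (xp p) w := xp_diff (by omega) w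
    have h1 : mt S A p = fun w => (mm A p : ℂ) * (xp p w - xp p w ^ 2) := by
      funext w; unfold Pool.Agent.W187.S2.mt; rw [if_pos hp]
    rw [h1]
    exact (hX.sub (hX.pow 2)).const_mul _
  · have h1 : mt S A p = fun _ => 0 := by
      funext w; unfold Pool.Agent.W187.S2.mt; rw [if_neg hp]
    rw [h1]
    exact differentiableAt_const _

theorem rt_diff (E : EData S A) (p : ℕ) {w : ℂ} (hw : 0 ≤ w.re) :
    DifferentiableAt ℂ (rt S A p) w := (gterm_diff E p hw).sub (mt_diff E p w)

theorem rt_zero (E : EData S A) (p : ℕ) : rt S A p 0 = 0 := by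
  by_cases hp : p ∈ S
  · unfold rt gterm Pool.Agent.W187.S2.mt
    rw [if_pos hp, if_pos hp, xp_zero, E.cc_eq hp]
    ring
  · unfold rt gterm Pool.Agent.W187.S2.mt
    rw [if_neg hp, if_neg hp, sub_zero]

theorem rt_summable (E : EData S A) {w : ℂ} (hw : 0 ≤ w.re) : Summable fun p => rt S A p w :=
  Summable.of_norm_bounded sum60 fun p => rt_bound E p hw

theorem MM_eq (E : EData S A) {w : ℂ} (hw : 0 < w.re) :
    MM S A w = GG S A w - ∑' p, rt S A p w := by
  have h1 := E.gterm_summable hw
  have h2 := rt_summable E hw.le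
  unfold MM GG
  rw [← h1.tsum_sub h2]
  refine tsum_congr fun p => ?_
  unfold rt
  ring

theorem isOpen_half' : IsOpen {z : ℂ | 0 < z.re} := isOpen_lt continuous_const Complex.continuous_re

theorem R_diff (E : EData S A) {w : ℂ} (hw : 0 < w.re) :
    DifferentiableAt ℂ (fun w => ∑' p, rt S A p w) w := by
  have hd : DifferentiableOn ℂ (fun w => ∑' p, rt S A p w) {z : ℂ | 0 < z.re} := by
    refine Complex.differentiableOn_tsum_of_summable_norm sum60 ?_ isOpen_half' ?_
    · intro p z hz
      have hz' : 0 < z.re := hz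
      exact (rt_diff E p hz'.le).differentiableWithinAt
    · intro p z hz
      have hz' : 0 < z.re := hz
      exact rt_bound E p hz'.le
  exact hd.differentiableAt (isOpen_half'.mem_nhds hw)

theorem mm_part : S_MM := by
  intro S A E
  refine ⟨?_, ?_, ?_⟩
  · intro w hw
    refine ((E.GG_differentiable hw).sub (R_diff E hw)).congr_of_eventuallyEq ?_
    filter_upwards [isOpen_half'.mem_nhds hw] with z hz
    exact MM_eq E hz
  · obtain ⟨C, hC⟩ := GG_sector E
    refine ⟨C + ∑' p : ℕ, 60 * (p : ℝ) ^ (-(3 / 2) : ℝ), fun w hw hw5 => ?_⟩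
    rw [MM_eq E hw]
    refine (norm_sub_le _ _).trans (add_le_add (hC w hw hw5) ?_)
    exact tsum_of_norm_bounded sum60.hasSum fun p => rt_bound E p hw.le
  · intro ζ hζ
    have hdiv : Tendsto (fun T : ℝ => ζ / (T : ℂ)) atTop (𝓝 0) := by
      have h1 : Tendsto (fun T : ℝ => ((T⁻¹ : ℝ) : ℂ)) atTop (𝓝 ((0 : ℝ) : ℂ)) :=
        (Complex.continuous_ofReal.tendsto 0).comp tendsto_inv_atTop_zero
      have h2 := h1.const_mul ζ
      rw [Complex.ofReal_zero, mul_zero] at h2
      refine h2.congr fun T => ?_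
      rw [Complex.ofReal_inv, div_eq_mul_inv]
    have hre : ∀ T : ℝ, 0 < T → 0 < (ζ / (T : ℂ)).re := by
      intro T hT
      rw [Complex.div_ofReal_re]
      positivity
    have hlim : Tendsto (fun T : ℝ => ∑' p, rt S A p (ζ / T)) atTop (𝓝 (∑' _ : ℕ, (0 : ℂ))) := by
      refine tendsto_tsum_of_dominated_convergence (f := fun (T : ℝ) p => rt S A p (ζ / T))
        sum60 ?_ ?_
      · intro p
        have hc : ContinuousAt (rt S A p) 0 := (rt_diff E p (w := 0) (by simp)).continuousAt
        have := hc.tendsto.comp hdiv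
        rw [rt_zero E p] at this
        exact this
      · filter_upwards [eventually_gt_atTop (0 : ℝ)] with T hT
        intro p
        exact rt_bound E p (hre T hT).le
    rw [tsum_zero] at hlim
    refine hlim.congr' ?_
    filter_upwards [eventually_gt_atTop (0 : ℝ)] with T hT
    rw [MM_eq E (hre T hT)]
    ring

end Pool.Agent.W856.S2
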